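import Mathlib
import Pool.Agent.Helper13_Circles.Main

/-!
# Two equal radii of largest lattice circles

For a circle with centre `(a, b)` and radius `r > 0` we count the lattice points strictly inside
it (`enclosed`) and on it (`onCircle`). A lattice circle has at least three lattice points on it;
`rho n` is the largest radius of a lattice circle enclosing exactly `n` lattice points
(and `0` if there is no largest one). We show `rho 157045 = rho 157049 = √49997`.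
-/

set_option autoImplicit false

namespace Pool.Agent.Results.MP_0dd62e_nt.EqualRadii

open Pool.Agent.Helper13_Circles

/-- The lattice points enclosed by the circle with centre `(a, b)` and radius `r`
(those in the open disc). -/
def enclosed (a b r : ℝ) : Set (ℤ × ℤ) :=
  {z | ((z.1 : ℝ) - a) ^ 2 + ((z.2 : ℝ) - b) ^ 2 < r ^ 2}

/-- The lattice points on the circle with centre `(a, b)` and radius `r`. -/
def onCircle (a b r : ℝ) : Set (ℤ × ℤ) :=
  {z | ((z.1 : ℝ) - a) ^ 2 + ((z.2 : ℝ) - b) ^ 2 = r ^ 2}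

/-- The radii of the `n`-enclosing lattice circles. -/
def radii (n : ℕ) : Set ℝ :=
  {r | 0 < r ∧ ∃ a b : ℝ, 3 ≤ (onCircle a b r).encard ∧ (enclosed a b r).encard = n}

open Classical in
/-- `rho n`: the radius of a largest `n`-enclosing lattice circle if one exists, `0` otherwise. -/
noncomputable def rho (n : ℕ) : ℝ :=
  if h : ∃ r, IsGreatest (radii n) r then h.choose else 0

theorem rho_eq {n : ℕ} {r : ℝ} (h : IsGreatest (radii n) r) : rho n = r := by
  have hex : ∃ r, IsGreatest (radii n) r := ⟨r, h⟩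
  unfold rho
  rw [dif_pos hex]
  exact hex.choose_spec.unique h

theorem sq_sqrt' : (√49997 : ℝ) ^ 2 = 49997 := Real.sq_sqrt (by norm_num)

theorem upper (n : ℕ) (hn : n < 157050) (r : ℝ) (hr : r ∈ radii n) : r ≤ √49997 := by
  obtain ⟨hr0, a, b, -, hcount⟩ := hr
  by_contra hlt
  push Not at hlt
  have hr2 : (49997 : ℝ) < r ^ 2 := by
    rw [← sq_sqrt']
    exact pow_lt_pow_left₀ hlt (Real.sqrt_nonneg _) (by norm_num)
  have hsub : cdisc a b ⊆ enclosed a b r := fun z hz => lt_of_le_of_lt hz hr2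
  have h1 := Set.encard_le_encard hsub
  rw [hcount, ← (cdisc_finite a b).cast_ncard_eq] at h1
  have h2 : (cdisc a b).ncard ≤ n := by exact_mod_cast h1
  have h3 := core a b
  omega

theorem three_le (S : Set (ℤ × ℤ)) (u v w : ℤ × ℤ) (huv : u ≠ v) (huw : u ≠ w) (hvw : v ≠ w)
    (hu : u ∈ S) (hv : v ∈ S) (hw : w ∈ S) : 3 ≤ S.encard := by
  have h1 : ({u, v, w} : Set (ℤ × ℤ)).encard = 3 :=
    Set.encard_eq_three.mpr ⟨u, v, w, huv, huw, hvw, rfl⟩
  rw [← h1]
  apply Set.encard_le_encard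
  rintro z (rfl | rfl | rfl) <;> assumption

theorem encard_inner (p q N : ℕ) (hN : 0 < N) (h : (inner p q).ncard = N) :
    (inner p q).encard = N := by
  have hfin : (inner p q).Finite := Set.finite_of_ncard_pos (by omega)
  rw [← hfin.cast_ncard_eq, h]

theorem enclosed_zero : enclosed 0 0 (√49997) = inner 0 0 := by
  ext ⟨u, v⟩
  show ((u : ℝ) - 0) ^ 2 + ((v : ℝ) - 0) ^ 2 < (√49997) ^ 2 ↔
    (5 * u - ((0 : ℕ) : ℤ)) ^ 2 + (5 * v - ((0 : ℕ) : ℤ)) ^ 2 < (1249925 : ℤ)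
  rw [sq_sqrt']
  have e : ((5 * u - ((0 : ℕ) : ℤ)) ^ 2 + (5 * v - ((0 : ℕ) : ℤ)) ^ 2 < (1249925 : ℤ)) ↔
      (((5 * u - ((0 : ℕ) : ℤ)) ^ 2 + (5 * v - ((0 : ℕ) : ℤ)) ^ 2 : ℤ) : ℝ) < 1249925 := by
    exact_mod_cast Iff.rfl
  rw [e]
  push_cast
  constructor <;> intro h <;> linarith

theorem enclosed_one : enclosed (2 / 5) (1 / 5) (√49997) = inner 2 1 := by
  ext ⟨u, v⟩
  show ((u : ℝ) - 2 / 5) ^ 2 + ((v : ℝ) - 1 / 5) ^ 2 < (√49997) ^ 2 ↔
    (5 * u - ((2 : ℕ) : ℤ)) ^ 2 + (5 * v - ((1 : ℕ) : ℤ)) ^ 2 < (1249925 : ℤ)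
  rw [sq_sqrt']
  have e : ((5 * u - ((2 : ℕ) : ℤ)) ^ 2 + (5 * v - ((1 : ℕ) : ℤ)) ^ 2 < (1249925 : ℤ)) ↔
      (((5 * u - ((2 : ℕ) : ℤ)) ^ 2 + (5 * v - ((1 : ℕ) : ℤ)) ^ 2 : ℤ) : ℝ) < 1249925 := by
    exact_mod_cast Iff.rfl
  rw [e]
  push_cast
  constructor <;> intro h <;> linarith

theorem greatest_zero : IsGreatest (radii 157045) (√49997) := by
  refine ⟨⟨by positivity, 0, 0, ?_, ?_⟩, fun r hr => upper _ (by norm_num) r hr⟩
  · refine three_le _ (221, 34) (34, 221) (-221, 34) (by decide) (by decide) (by decide) ?_ ?_ ?_ <;>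
    · show (((_ : ℤ) : ℝ) - 0) ^ 2 + (((_ : ℤ) : ℝ) - 0) ^ 2 = (√49997) ^ 2
      rw [sq_sqrt']; norm_num
  · rw [enclosed_zero]
    exact encard_inner _ _ _ (by norm_num) inner_zero

theorem greatest_one : IsGreatest (radii 157049) (√49997) := by
  refine ⟨⟨by positivity, 2 / 5, 1 / 5, ?_, ?_⟩, fun r hr => upper _ (by norm_num) r hr⟩
  · refine three_le _ (224, 0) (215, 63) (-156, 160) (by decide) (by decide) (by decide)
      ?_ ?_ ?_ <;>
    · show (((_ : ℤ) : ℝ) - 2 / 5) ^ 2 + (((_ : ℤ) : ℝ) - 1 / 5) ^ 2 = (√49997) ^ 2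
      rw [sq_sqrt']; norm_num
  · rw [enclosed_one]
    exact encard_inner _ _ _ (by norm_num) inner_one

/-- **Main result.** `ρ_157045 = ρ_157049 = √49997`, so the numbers `ρ_n` (`n ≠ 6`) are not
pairwise distinct. -/
theorem result : rho 157045 = √49997 ∧ rho 157049 = √49997 :=
  ⟨rho_eq greatest_zero, rho_eq greatest_one⟩

end Pool.Agent.Results.MP_0dd62e_nt.EqualRadii
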